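import Pool.Agent.H58.FL.TargetsB

/-!
# Board flc_modules, row MVL (helper79): the union of two open sets
-/

set_option autoImplicit false

open Topology Set

namespace Pool.Agent.H79.FL.MVL

open Pool.Agent.H58.FL Pool.Agent.H59 Pool.Agent.H48.FR

section

variable {Y : Type} [TopologicalSpace Y]

theorem small_all {O₁ O₂ : Set Y} (h₁ : IsOpen O₁) (h₂ : IsOpen O₂) (hU : O₁ ∪ O₂ = univ)
    {n : ℕ} (z : Ch ℤ n Y) : ∃ m₀, ∀ m ≥ m₀, SdI n m z ∈ Sml n O₁ O₂ := by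
  induction z using Finsupp.induction_linear with
  | zero => exact ⟨0, fun m _ => by rw [map_zero]; exact Submodule.zero_mem _⟩
  | add x y hx hy =>
    obtain ⟨a, ha⟩ := hx
    obtain ⟨b, hb⟩ := hy
    refine ⟨max a b, fun m hm => ?_⟩
    rw [map_add]
    exact Submodule.add_mem _ (ha m ((le_max_left _ _).trans hm))
      (hb m ((le_max_right _ _).trans hm))
  | single σ r =>
    obtain ⟨a, ha⟩ := exists_small σ h₁ h₂ (fun x => by rw [hU]; exact mem_univ _)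
    refine ⟨a, fun m hm => ?_⟩
    have h : (Finsupp.single σ r : Ch ℤ n Y) = r • Finsupp.single σ (1 : ℤ) := by
      rw [Finsupp.smul_single, smul_eq_mul, mul_one]
    rw [h, map_smul]
    exact Submodule.smul_mem _ _ (ha m hm)

theorem split_Sml {O₁ O₂ : Set Y} {n : ℕ} {z : Ch ℤ n Y} (h : z ∈ Sml n O₁ O₂) :
    ∃ z₁ ∈ Sup n O₁, ∃ z₂ ∈ Sup n O₂, z₁ + z₂ = z := by
  have e : Sml n O₁ O₂ = Sup n O₁ ⊔ Sup n O₂ := by
    unfold Sml Sup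
    rw [← Finsupp.supported_union]
    rfl
  rw [e] at h
  exact Submodule.mem_sup.1 h

/-- the inclusion -/
def inc (W : Set Y) : C(W, Y) := ⟨Subtype.val, continuous_subtype_val⟩

theorem lift_Sup {W : Set Y} {n : ℕ} {x : Ch ℤ n Y} (h : x ∈ Sup n W) :
    ∃ y : Ch ℤ n W, pf ℤ n (inc W) y = x := by
  have h1 := lin_mem (LinearMap.id : Ch ℤ n Y →ₗ[ℤ] Ch ℤ n Y) {σ | ∀ x, σ x ∈ W}
    (LinearMap.range (pf ℤ n (inc W))) ?_ h
  · exact h1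
  · intro σ hσ
    refine ⟨Finsupp.single ⟨fun x => ⟨σ x, hσ x⟩, by
      exact Continuous.subtype_mk σ.continuous _⟩ 1, ?_⟩
    rw [pf_single]
    rfl

theorem pf_inj (W : Set Y) (n : ℕ) : Function.Injective (pf ℤ n (inc W)) := by
  refine Finsupp.mapDomain_injective ?_
  intro σ τ h
  ext x
  have := congrArg (fun f : C(Dl n, Y) => f x) h
  exact this

theorem pf_inc_mem {W : Set Y} {n : ℕ} (y : Ch ℤ n W) : pf ℤ n (inc W) y ∈ Sup n W := by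
  refine lin_mem _ univ _ (fun σ _ => ?_) (by simp)
  rw [pf_single]
  exact single_mem_Sup (fun x => (σ x).2) _

theorem isZ_of {W : Set Y} {n : ℕ} {y : Ch ℤ n W} (h : IsZ (pf ℤ n (inc W) y)) : IsZ y := by
  cases n with
  | zero => trivial
  | succ n =>
    have h1 : bd ℤ n Y (pf ℤ (n + 1) (inc W) y) = 0 := h
    rw [bd_pf] at h1
    show bd ℤ n W y = 0
    apply pf_inj W n
    rw [h1, map_zero]

theorem isZ_to {W : Set Y} {n : ℕ} {y : Ch ℤ n W} (h : IsZ y) : IsZ (pf ℤ n (inc W) y) := by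
  cases n with
  | zero => trivial
  | succ n =>
    have h1 : bd ℤ n W y = 0 := h
    show bd ℤ n Y (pf ℤ (n + 1) (inc W) y) = 0
    rw [bd_pf, h1, map_zero]

theorem vanS {W : Set Y} {n : ℕ} (h : Van n W) (x : Ch ℤ n Y) (hx : x ∈ Sup n W) (hz : IsZ x) :
    ∃ b ∈ Sup (n + 1) W, bd ℤ n Y b = x := by
  obtain ⟨y, rfl⟩ := lift_Sup hx
  obtain ⟨b, hb⟩ := h y (isZ_of hz)
  exact ⟨pf ℤ (n + 1) (inc W) b, pf_inc_mem b, by rw [bd_pf, hb]⟩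

theorem cycS {W : Set Y} {n : ℕ} (h : Cyc n W) : ∃ g ∈ Sup n W, IsZ g ∧
    ∀ x ∈ Sup n W, IsZ x → ∃ a : ℤ, ∃ b ∈ Sup (n + 1) W, bd ℤ n Y b = x - a • g := by
  obtain ⟨g, hg, hgen⟩ := h
  refine ⟨pf ℤ n (inc W) g, pf_inc_mem g, isZ_to hg, ?_⟩
  intro x hx hz
  obtain ⟨y, rfl⟩ := lift_Sup hx
  obtain ⟨a, b, hb⟩ := hgen y (isZ_of hz)
  exact ⟨a, pf ℤ (n + 1) (inc W) b, pf_inc_mem b, by rw [bd_pf, hb, map_sub, map_smul]⟩

/-- a splitting of the cycle `z` -/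
structure Spl (O₁ O₂ : Set Y) (n : ℕ) (z z₁ z₂ : Ch ℤ (n + 1) Y) (e : Ch ℤ (n + 2) Y) : Prop where
  cyc : bd ℤ n Y z = 0
  m1 : z₁ ∈ Sup (n + 1) O₁
  m2 : z₂ ∈ Sup (n + 1) O₂
  eq : z = z₁ + z₂ + bd ℤ (n + 1) Y e

theorem exists_spl {O₁ O₂ : Set Y} (h₁ : IsOpen O₁) (h₂ : IsOpen O₂) (hU : O₁ ∪ O₂ = univ)
    {n : ℕ} (z : Ch ℤ (n + 1) Y) (hz : bd ℤ n Y z = 0) : ∃ z₁ z₂ e, Spl O₁ O₂ n z z₁ z₂ e := by
  obtain ⟨m, hm⟩ := small_all h₁ h₂ hU z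
  obtain ⟨z₁, hz₁, z₂, hz₂, hs⟩ := split_Sml (hm m le_rfl)
  refine ⟨z₁, z₂, DI (n + 1) m z, hz, hz₁, hz₂, ?_⟩
  rw [hs, bd_DI, hz, map_zero]
  abel

theorem Spl.add {O₁ O₂ : Set Y} {n : ℕ} {z z₁ z₂ z' z₁' z₂' : Ch ℤ (n + 1) Y}
    {e e' : Ch ℤ (n + 2) Y} (h : Spl O₁ O₂ n z z₁ z₂ e) (h' : Spl O₁ O₂ n z' z₁' z₂' e') :
    Spl O₁ O₂ n (z + z') (z₁ + z₁') (z₂ + z₂') (e + e') where
  cyc := by rw [map_add, h.cyc, h'.cyc, add_zero]
  m1 := Submodule.add_mem _ h.m1 h'.m1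
  m2 := Submodule.add_mem _ h.m2 h'.m2
  eq := by
    rw [map_add]
    conv_lhs => rw [h.eq, h'.eq]
    abel

theorem Spl.smul {O₁ O₂ : Set Y} {n : ℕ} {z z₁ z₂ : Ch ℤ (n + 1) Y}
    {e : Ch ℤ (n + 2) Y} (h : Spl O₁ O₂ n z z₁ z₂ e) (k : ℤ) :
    Spl O₁ O₂ n (k • z) (k • z₁) (k • z₂) (k • e) where
  cyc := by rw [map_smul, h.cyc, smul_zero]
  m1 := Submodule.smul_mem _ _ h.m1
  m2 := Submodule.smul_mem _ _ h.m2
  eq := by
    rw [map_smul]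
    conv_lhs => rw [h.eq]
    rw [smul_add, smul_add]

theorem Spl.bd_eq {O₁ O₂ : Set Y} {n : ℕ} {z z₁ z₂ : Ch ℤ (n + 1) Y}
    {e : Ch ℤ (n + 2) Y} (h : Spl O₁ O₂ n z z₁ z₂ e) : bd ℤ n Y z₁ + bd ℤ n Y z₂ = 0 := by
  have h1 := h.cyc
  rw [h.eq, map_add, map_add, bd_bd, add_zero] at h1
  exact h1

theorem Spl.bd_mem {O₁ O₂ : Set Y} {n : ℕ} {z z₁ z₂ : Ch ℤ (n + 1) Y}
    {e : Ch ℤ (n + 2) Y} (h : Spl O₁ O₂ n z z₁ z₂ e) : bd ℤ n Y z₁ ∈ Sup n (O₁ ∩ O₂) := by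
  refine Sup_inter (bd_mem_Sup h.m1) ?_
  rw [eq_neg_of_add_eq_zero_left h.bd_eq]
  exact Submodule.neg_mem _ (bd_mem_Sup h.m2)

theorem isZ_bd {n : ℕ} (z : Ch ℤ (n + 1) Y) : IsZ (bd ℤ n Y z) := by
  cases n with
  | zero => trivial
  | succ n => exact bd_bd n z

/-- if the boundary of the first part is a boundary in the intersection, the cycle bounds -/
theorem Spl.bounds {O₁ O₂ : Set Y} {n : ℕ} {z z₁ z₂ c : Ch ℤ (n + 1) Y}
    {e : Ch ℤ (n + 2) Y} (h : Spl O₁ O₂ n z z₁ z₂ e) (v₁ : Van (n + 1) O₁) (v₂ : Van (n + 1) O₂)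
    (hc : c ∈ Sup (n + 1) (O₁ ∩ O₂)) (hbd : bd ℤ n Y c = bd ℤ n Y z₁) :
    ∃ b : Ch ℤ (n + 2) Y, bd ℤ (n + 1) Y b = z := by
  obtain ⟨b₁, -, hb₁⟩ := vanS v₁ (z₁ - c)
    (Submodule.sub_mem _ h.m1 (Sup_mono inter_subset_left hc)) (by
      show bd ℤ n Y (z₁ - c) = 0
      rw [map_sub, hbd, sub_self])
  obtain ⟨b₂, -, hb₂⟩ := vanS v₂ (z₂ + c)
    (Submodule.add_mem _ h.m2 (Sup_mono inter_subset_right hc)) (by
      show bd ℤ n Y (z₂ + c) = 0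
      rw [map_add, hbd, add_comm]
      exact h.bd_eq)
  refine ⟨b₁ + b₂ + e, ?_⟩
  rw [map_add, map_add, hb₁, hb₂, h.eq]
  abel

end

theorem pf_MVL : T_MVL := by
  intro Y _ O₁ O₂ h₁ h₂ hU n v₁ v₂
  constructor
  · intro hv z hz
    obtain ⟨z₁, z₂, e, hs⟩ := exists_spl h₁ h₂ hU z hz
    obtain ⟨c, hc, hbc⟩ := vanS hv (bd ℤ n Y z₁) hs.bd_mem (isZ_bd z₁)
    exact hs.bounds v₁ v₂ hc hbc
  · intro hcy
    obtain ⟨g, hg, hgz, hgen⟩ := cycS hcy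
    -- the ideal of the multiples which occur
    let I : Ideal ℤ :=
      { carrier := {a : ℤ | ∃ z z₁ z₂ e c, Spl O₁ O₂ n z z₁ z₂ e ∧ c ∈ Sup (n + 1) (O₁ ∩ O₂) ∧
          bd ℤ n Y c = bd ℤ n Y z₁ - a • g}
        add_mem' := by
          rintro a a' ⟨z, z₁, z₂, e, c, hs, hc, hb⟩ ⟨z', z₁', z₂', e', c', hs', hc', hb'⟩
          refine ⟨z + z', z₁ + z₁', z₂ + z₂', e + e', c + c', hs.add hs',
            Submodule.add_mem _ hc hc', ?_⟩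
          rw [map_add, map_add, hb, hb', add_smul]
          abel
        zero_mem' := by
          refine ⟨0, 0, 0, 0, 0, ⟨map_zero _, Submodule.zero_mem _, Submodule.zero_mem _, ?_⟩,
            Submodule.zero_mem _, ?_⟩
          · simp
          · simp
        smul_mem' := by
          rintro k a ⟨z, z₁, z₂, e, c, hs, hc, hb⟩
          refine ⟨k • z, k • z₁, k • z₂, k • e, k • c, hs.smul k, Submodule.smul_mem _ _ hc, ?_⟩
          rw [map_smul, map_smul, hb, smul_sub, smul_smul, smul_eq_mul] }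
    obtain ⟨d, hd⟩ := (IsPrincipalIdealRing.principal I).principal
    have hdI : d ∈ I := by
      rw [hd]
      exact Ideal.mem_span_singleton_self d
    obtain ⟨z0, z01, z02, e0, c0, hs0, hc0, hb0⟩ := hdI
    refine ⟨z0, hs0.cyc, ?_⟩
    intro z hz
    obtain ⟨z₁, z₂, e, hs⟩ := exists_spl h₁ h₂ hU z hz
    obtain ⟨a, c, hc, hbc⟩ := hgen (bd ℤ n Y z₁) hs.bd_mem (isZ_bd z₁)
    have haI : a ∈ I := ⟨z, z₁, z₂, e, c, hs, hc, hbc⟩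
    rw [hd] at haI
    obtain ⟨k, hk⟩ := Ideal.mem_span_singleton'.1 haI
    have hs2 := hs.add (hs0.smul (-k))
    obtain ⟨b, hb⟩ := hs2.bounds v₁ v₂ (c := c + (-k) • c0)
      (Submodule.add_mem _ hc (Submodule.smul_mem _ _ hc0)) (by
        rw [map_add, map_add, map_smul, map_smul, hbc, hb0, ← hk, smul_sub, smul_smul]
        rw [neg_mul, neg_smul, neg_smul]
        abel)
    refine ⟨k, b, ?_⟩
    rw [hb, neg_smul]
    abel

end Pool.Agent.H79.FL.MVL
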