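import Pool.Agent.H58.FL.Targets

/-!
# Filling radius of complex projective spaces: row KIL (helper79)
-/

set_option autoImplicit false

open Topology Set CategoryTheory CategoryTheory.Limits Simplicial

namespace Pool.Agent.H79.FL

open Pool.Agent.H58.FL Pool.Agent.H59 Pool.Agent.H48.FR

noncomputable section

/-- elements of homology -/
theorem bdry_of_homologyMap {K L : ChainComplex (ModuleCat.{0} ℤ) ℕ} (F : K ⟶ L) (m : ℕ)
    (N : ℤ) (h : N • HomologicalComplex.homologyMap F (m + 1) = 0) (z : K.X (m + 1))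
    (hz : (K.d (m + 1) m).hom z = 0) :
    ∃ b : L.X (m + 2), (L.d (m + 2) (m + 1)).hom b = N • (F.f (m + 1)).hom z := by
  set φ : ModuleCat.of ℤ ℤ ⟶ K.X (m + 1) :=
    ModuleCat.ofHom (LinearMap.toSpanSingleton ℤ (K.X (m + 1)) z) with hφ
  have hφ1 : φ.hom (1 : ℤ) = z := by
    rw [hφ, ModuleCat.hom_ofHom, LinearMap.toSpanSingleton_apply]
    exact @one_smul ℤ (K.X (m + 1)) _ (K.X (m + 1)).isModule.toMulAction z
  have hφ0 : φ ≫ K.d (m + 1) m = 0 := by
    apply ModuleCat.hom_ext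
    apply LinearMap.ext_ring
    change (K.d (m + 1) m).hom (φ.hom (1 : ℤ)) = 0
    rw [hφ1]
    exact hz
  have hnext : (ComplexShape.down ℕ).next (m + 1) = m := by simp
  have hprev : (ComplexShape.down ℕ).prev (m + 1) = m + 2 := by simp
  have h1 := K.liftCycles φ m hnext hφ0
  have h2 : K.liftCycles φ m hnext hφ0 ≫ HomologicalComplex.cyclesMap F (m + 1) ≫
      L.homologyπ (m + 1) = K.liftCycles φ m hnext hφ0 ≫ K.homologyπ (m + 1) ≫
        HomologicalComplex.homologyMap F (m + 1) := by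
    rw [HomologicalComplex.homologyπ_naturality]
  have h3 : N • (K.liftCycles φ m hnext hφ0 ≫ HomologicalComplex.cyclesMap F (m + 1) ≫
      L.homologyπ (m + 1)) = 0 := by
    rw [h2, ← Preadditive.comp_zsmul, ← Preadditive.comp_zsmul, h, comp_zero, comp_zero]
  set ψ : ModuleCat.of ℤ ℤ ⟶ L.cycles (m + 1) :=
    N • (K.liftCycles φ m hnext hφ0 ≫ HomologicalComplex.cyclesMap F (m + 1)) with hψ
  have h4 : ψ ≫ L.homologyπ (m + 1) = 0 := by
    rw [hψ, Preadditive.zsmul_comp, Category.assoc, h3]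
  have h5 : ψ ≫ L.iCycles (m + 1) = N • (φ ≫ F.f (m + 1)) := by
    rw [hψ, Preadditive.zsmul_comp, HomologicalComplex.liftCycles_comp_cyclesMap,
      HomologicalComplex.liftCycles_i]
  set S : ShortComplex (ModuleCat.{0} ℤ) := ShortComplex.mk (L.toCycles (m + 2) (m + 1))
    (L.homologyπ (m + 1)) (L.toCycles_comp_homologyπ (m + 2) (m + 1)) with hS
  have hex : S.Exact := ShortComplex.exact_of_g_is_cokernel S
    (L.homologyIsCokernel (m + 2) (m + 1) hprev)
  rw [ShortComplex.moduleCat_exact_iff] at hex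
  obtain ⟨b, hb⟩ := hex (ψ.hom (1 : ℤ)) (by
    have := congrArg (fun f => f.hom (1 : ℤ)) h4
    exact this)
  refine ⟨b, ?_⟩
  have h6 : (L.d (m + 2) (m + 1)).hom b = (L.iCycles (m + 1)).hom (S.f.hom b) := by
    have := congrArg (fun f => f.hom b) (L.toCycles_i (m + 2) (m + 1))
    exact this.symm
  rw [h6]
  have hb' : S.f.hom b = ψ.hom (1 : ℤ) := hb
  rw [hb']
  have h7 := congrArg (fun f => f.hom (1 : ℤ)) h5
  have h8 : (L.iCycles (m + 1)).hom (ψ.hom (1 : ℤ)) =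
      N • (F.f (m + 1)).hom (φ.hom (1 : ℤ)) := h7
  rw [h8, hφ1]

/-- the chain map of a continuous map -/
abbrev cm {Y Z : Type} [TopologicalSpace Y] [TopologicalSpace Z] (f : C(Y, Z)) :
    Pool.Agent.H59.SC Y ⟶ Pool.Agent.H59.SC Z :=
  SSet.chainComplexMap (TopCat.toSSet.map (TopCat.ofHom f)) (ModuleCat.of ℤ ℤ)

theorem cm_ofCh {Y Z : Type} [TopologicalSpace Y] [TopologicalSpace Z] (f : C(Y, Z)) (n : ℕ)
    (c : Ch ℤ (n + 1) Y) : ((cm f).f n).hom (ofCh Y n c) = ofCh Z n (pf ℤ (n + 1) f c) := by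
  have : ((cm f).f n).hom ∘ₗ ofCh Y n = ofCh Z n ∘ₗ pf ℤ (n + 1) f := by
    apply Finsupp.lhom_ext'
    intro σ
    apply LinearMap.ext_ring
    change ((cm f).f n).hom (ofCh Y n (Finsupp.single σ 1)) =
      ofCh Z n (pf ℤ (n + 1) f (Finsupp.single σ 1))
    rw [pf_single, ofCh_single, ofCh_single]
    have h1 := congrArg (fun g : ModuleCat.of ℤ ℤ ⟶ (Pool.Agent.H59.SC Z).X n => g.hom (1 : ℤ))
      (SSet.ι_chainComplexMap_f (Pool.Agent.H59.SS Y) (Pool.Agent.H59.SS Z)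
        (TopCat.toSSet.map (TopCat.ofHom f)) (ModuleCat.of ℤ ℤ) ((smpEquiv Y n).symm σ))
    have h2 : (TopCat.toSSet.map (TopCat.ofHom f)).app _ ((smpEquiv Y n).symm σ) =
        (smpEquiv Z n).symm (f.comp σ) := by
      rw [Equiv.eq_symm_apply]
      rfl
    rw [h2] at h1
    exact h1
  exact LinearMap.congr_fun this c

theorem pf_KIL : T_KIL := by
  intro Y Z _ _ f d N hK z hz
  have h1 : N • HomologicalComplex.homologyMap (cm f) (d + 1) = 0 := hK
  have hz' : ((Pool.Agent.H59.SC Y).d (d + 1) d).hom (ofCh Y (d + 1) z) = 0 := by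
    have h1 := toCh_comm Y d (ofCh Y (d + 1) z)
    rw [toCh_ofCh, hz] at h1
    have h2 := congrArg (ofCh Y d) h1
    rw [ofCh_toCh, map_zero] at h2
    exact h2
  obtain ⟨b, hb⟩ := bdry_of_homologyMap (cm f) d N h1 (ofCh Y (d + 1) z) hz'
  refine ⟨(toCh Z (d + 2)).hom b, ?_⟩
  rw [← toCh_comm]
  rw [cm_ofCh] at hb
  have h3 := congrArg (toCh Z (d + 1)).hom hb
  rw [map_zsmul, toCh_ofCh] at h3
  exact h3

end

end Pool.Agent.H79.FL
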